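import Pool.Agent.Helper92.GG.Stmts

/-! # Module COUNT: points of small rank over finite fields -/

set_option autoImplicit false

namespace Pool.Agent.Helper92.GG

open MvPolynomial

universe u

namespace COUNT

/-- the statement for one index type -/
def PP (ι : Type) : Prop :=
  ∀ d D : ℕ, ∃ C : ℕ, ∀ (E : Type u) [Field E] [Finite E] (W : Set (ι → E)),
    (∀ T : Finset ι, T.card = d + 1 → ∃ f : MvPolynomial ι E, f ≠ 0 ∧ f.totalDegree ≤ D ∧
      (f.vars : Set ι) ⊆ T ∧ ∀ p ∈ W, eval p f = 0) →
    W.ncard ≤ C * Nat.card E ^ d

theorem of_equiv {α β : Type} (e : α ≃ β) (h : PP.{u} α) : PP.{u} β := by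
  classical
  intro d D
  obtain ⟨C, hC⟩ := h d D
  refine ⟨C, ?_⟩
  intro E _ _ W hW
  have h1 := hC E ((fun p : β → E => p ∘ e) '' W) (by
    intro T hT
    obtain ⟨f, hf0, hfd, hfv, hfW⟩ := hW (T.map e.toEmbedding) (by rw [Finset.card_map, hT])
    refine ⟨rename e.symm f, ?_, (totalDegree_rename_le _ _).trans hfd, ?_, ?_⟩
    · intro h0
      apply hf0
      apply rename_injective e.symm e.symm.injective
      rw [h0, map_zero]
    · intro a ha
      obtain ⟨b, hb, hba⟩ := mem_vars_rename e.symm f ha
      have h2 := hfv hb
      rw [Finset.mem_coe, Finset.mem_map_equiv] at h2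
      rw [← hba]
      exact h2
    · rintro _ ⟨p, hp, rfl⟩
      rw [eval_rename]
      have : (p ∘ e) ∘ e.symm = p := by
        funext b
        simp
      rw [this]
      exact hfW p hp)
  rwa [Set.ncard_image_of_injective] at h1
  intro p q hpq
  funext b
  have := congrFun hpq (e.symm b)
  simpa using this

theorem empty : PP.{u} PEmpty := by
  intro d D
  refine ⟨1, ?_⟩
  intro E _ _ W _
  have h1 : W.ncard ≤ 1 := by
    rw [Set.ncard_le_one_iff]
    intro a b _ _
    exact Subsingleton.elim a b
  have h2 : 0 < Nat.card E := Nat.card_pos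
  have h3 : 1 ≤ Nat.card E ^ d := Nat.one_le_pow _ _ h2
  omega

theorem vars_coeff {κ : Type} {E : Type u} [Field E] (f : MvPolynomial (Option κ) E) (i : ℕ) (v : κ)
    (hv : v ∈ ((optionEquivLeft E κ f).coeff i).vars) : some v ∈ f.vars := by
  rw [mem_vars_iff_mem_support] at hv ⊢
  obtain ⟨m, hm, hvm⟩ := hv
  rw [mem_support_coeff_optionEquivLeft] at hm
  refine ⟨_, hm, ?_⟩
  rw [Finsupp.mem_support_iff] at hvm ⊢
  rw [Finsupp.optionElim_apply_some]
  exact hvm

theorem option {κ : Type} [Finite κ] (h : PP.{u} κ) : PP.{u} (Option κ) := by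
  classical
  intro d D
  obtain ⟨C1, hC1⟩ := h d D
  obtain ⟨C2, hC2⟩ := h (d - 1) D
  refine ⟨D * C1 + C2, ?_⟩
  intro E _ _ W hW
  have := Fintype.ofFinite E
  have := Fintype.ofFinite κ
  set N := Nat.card E with hN
  let pr : (Option κ → E) → (κ → E) := fun p k => p (some k)
  choose! f hf0 hfd hfv hfW using hW
  have heval : ∀ (g : MvPolynomial (Option κ) E) (p : Option κ → E),
      eval p g = Polynomial.eval (p none) (Polynomial.map (eval (pr p)) (optionEquivLeft E κ g)) := by
    intro g p
    rw [← optionEquivLeft_elim_eval]
    congr 1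
    congr 1
    funext o
    cases o <;> rfl
  let F : Finset κ → Polynomial (MvPolynomial κ E) :=
    fun S => optionEquivLeft E κ (f (Finset.insertNone S))
  have hcS : ∀ S : Finset κ, S.card = d → (Finset.insertNone S).card = d + 1 := by
    intro S hS; rw [Finset.card_insertNone, hS]
  have hF0 : ∀ S : Finset κ, S.card = d → F S ≠ 0 := by
    intro S hS h0
    apply hf0 _ (hcS S hS)
    exact (optionEquivLeft E κ).injective (by rw [map_zero]; exact h0)
  let W1 : Set (Option κ → E) := {p | p ∈ W ∧ ∃ S : Finset κ, S.card = d ∧
    (F S).map (eval (pr p)) ≠ 0}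
  let W2 : Set (Option κ → E) := {p | p ∈ W ∧ ∀ S : Finset κ, S.card = d →
    (F S).map (eval (pr p)) = 0}
  have hunion : W ⊆ W1 ∪ W2 := by
    intro p hp
    by_cases hS : ∃ S : Finset κ, S.card = d ∧ (F S).map (eval (pr p)) ≠ 0
    · exact Or.inl ⟨hp, hS⟩
    · right
      refine ⟨hp, fun S hS' => ?_⟩
      by_contra hne
      exact hS ⟨S, hS', hne⟩
  -- the first part
  have hprW : (pr '' W).ncard ≤ C1 * N ^ d := by
    apply hC1 E (pr '' W)
    intro T hT
    have hT' : (T.map Function.Embedding.some).card = d + 1 := by rw [Finset.card_map, hT]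
    set g := f (T.map Function.Embedding.some) with hg
    have hnone : none ∉ g.vars := by
      intro hn
      have := hfv _ hT' hn
      rw [Finset.mem_coe, Finset.mem_map] at this
      obtain ⟨a, _, ha⟩ := this
      exact absurd ha (by simp)
    have hnd : (optionEquivLeft E κ g).natDegree = 0 := by
      rw [natDegree_optionEquivLeft]
      by_contra hne
      exact hnone (mem_vars_iff_degreeOf_ne_zero.mpr hne)
    have hC := Polynomial.eq_C_of_natDegree_eq_zero hnd
    refine ⟨(optionEquivLeft E κ g).coeff 0, ?_, ?_, ?_, ?_⟩
    · intro h0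
      rw [h0, map_zero] at hC
      apply hf0 _ hT'
      exact (optionEquivLeft E κ).injective (by rw [map_zero]; exact hC)
    · exact (totalDegree_coeff_optionEquivLeft_le _ _ _ _).trans (hfd _ hT')
    · intro v hv
      have h1 := hfv _ hT' (vars_coeff g 0 v hv)
      rw [Finset.mem_coe, Finset.mem_map] at h1
      obtain ⟨a, ha, hav⟩ := h1
      have : a = v := Option.some_injective _ hav
      rw [← this]
      exact ha
    · rintro _ ⟨p, hp, rfl⟩
      have h1 := hfW _ hT' p hp
      rw [← hg, heval g p, hC, Polynomial.map_C, Polynomial.eval_C] at h1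
      exact h1
  have hW1 : W1.ncard ≤ D * (C1 * N ^ d) := by
    have h1 : W1.toFinset.card ≤ D * (W1.toFinset.image pr).card := by
      apply Finset.card_le_mul_card_image
      intro q hq
      rw [Finset.mem_image] at hq
      obtain ⟨p0, hp0, hp0q⟩ := hq
      rw [Set.mem_toFinset] at hp0
      obtain ⟨hp0W, S, hS, hne⟩ := hp0
      rw [hp0q] at hne
      set G := (F S).map (eval q) with hG
      have hGd : G.natDegree ≤ D := by
        refine (Polynomial.natDegree_map_le).trans ?_
        show (optionEquivLeft E κ (f (Finset.insertNone S))).natDegree ≤ D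
        rw [natDegree_optionEquivLeft]
        exact (degreeOf_le_totalDegree _ _).trans (hfd _ (hcS S hS))
      calc (W1.toFinset.filter (fun p => pr p = q)).card ≤ G.roots.toFinset.card := by
            apply Finset.card_le_card_of_injOn (fun p => p none)
            · intro p hp
              rw [Finset.mem_coe, Finset.mem_filter, Set.mem_toFinset] at hp
              rw [Finset.mem_coe, Multiset.mem_toFinset, Polynomial.mem_roots hne]
              have h2 := hfW _ (hcS S hS) p hp.1.1
              rw [heval, hp.2] at h2
              exact h2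
            · intro p hp p' hp' hpp
              rw [Finset.mem_coe, Finset.mem_filter] at hp hp'
              funext o
              cases o with
              | none => exact hpp
              | some k => exact congrFun (hp.2.trans hp'.2.symm) k
        _ ≤ G.roots.card := Multiset.toFinset_card_le _
        _ ≤ G.natDegree := Polynomial.card_roots' _
        _ ≤ D := hGd
    have h2 : (W1.toFinset.image pr).card ≤ C1 * N ^ d := by
      refine le_trans ?_ hprW
      rw [← Set.ncard_coe_finset]
      apply Set.ncard_le_ncard _ (Set.toFinite _)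
      intro q hq
      rw [Finset.mem_coe, Finset.mem_image] at hq
      obtain ⟨p, hp, hpq⟩ := hq
      rw [Set.mem_toFinset] at hp
      exact ⟨p, hp.1, hpq⟩
    rw [Set.ncard_eq_toFinset_card']
    exact h1.trans (Nat.mul_le_mul_left _ h2)
  -- the second part
  have hW2 : W2.ncard ≤ C2 * N ^ d := by
    rcases Nat.eq_zero_or_pos d with hd | hd
    · have hemp : W2 = ∅ := by
        rw [Set.eq_empty_iff_forall_notMem]
        rintro p ⟨_, hp⟩
        have h1 := hp ∅ (by rw [Finset.card_empty, hd])
        have h2 := hF0 ∅ (by rw [Finset.card_empty, hd])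
        apply h2
        ext1 i
        rw [Polynomial.coeff_zero]
        have h3 := congrArg (fun P => Polynomial.coeff P i) h1
        simp only [Polynomial.coeff_map, Polynomial.coeff_zero] at h3
        have h4 : ((F ∅).coeff i).vars = ∅ := by
          rw [Finset.eq_empty_iff_forall_notMem]
          intro v hv
          have h5 := hfv _ (hcS ∅ (by rw [Finset.card_empty, hd])) (vars_coeff _ i v hv)
          rw [Finset.mem_coe, Finset.some_mem_insertNone] at h5
          exact absurd h5 (Finset.notMem_empty v)
        rw [vars_eq_empty_iff_eq_C] at h4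
        rw [h4, eval_C] at h3
        rw [h4, h3, map_zero]
      rw [hemp, Set.ncard_empty]
      exact Nat.zero_le _
    · have h1 : W2.toFinset.card ≤ N * (W2.toFinset.image pr).card := by
        apply Finset.card_le_mul_card_image
        intro q _
        calc (W2.toFinset.filter (fun p => pr p = q)).card ≤ (Finset.univ : Finset E).card := by
              apply Finset.card_le_card_of_injOn (fun p => p none)
              · intro p _
                exact Finset.mem_coe.mpr (Finset.mem_univ _)
              · intro p hp p' hp' hpp
                rw [Finset.mem_coe, Finset.mem_filter] at hp hp'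
                funext o
                cases o with
                | none => exact hpp
                | some k => exact congrFun (hp.2.trans hp'.2.symm) k
          _ = N := by rw [Finset.card_univ, hN, Nat.card_eq_fintype_card]
      have h2 : (W2.toFinset.image pr).card ≤ C2 * N ^ (d - 1) := by
        have h3 := hC2 E (pr '' W2) (by
          intro T hT
          have hT' : T.card = d := by omega
          have hFT := hF0 T hT'
          obtain ⟨i, hi⟩ : ∃ i, (F T).coeff i ≠ 0 := by
            by_contra hcon
            push Not at hcon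
            apply hFT
            ext1 i
            rw [Polynomial.coeff_zero]
            exact hcon i
          refine ⟨(F T).coeff i, hi, ?_, ?_, ?_⟩
          · exact (totalDegree_coeff_optionEquivLeft_le _ _ _ _).trans (hfd _ (hcS T hT'))
          · intro v hv
            have h5 := hfv _ (hcS T hT') (vars_coeff _ i v hv)
            rw [Finset.mem_coe, Finset.some_mem_insertNone] at h5
            exact h5
          · rintro _ ⟨p, hp, rfl⟩
            have h6 := hp.2 T hT'
            have h7 := congrArg (fun P => Polynomial.coeff P i) h6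
            simp only [Polynomial.coeff_map, Polynomial.coeff_zero] at h7
            exact h7)
        refine le_trans ?_ h3
        rw [← Set.ncard_coe_finset]
        apply Set.ncard_le_ncard _ (Set.toFinite _)
        intro q hq
        rw [Finset.mem_coe, Finset.mem_image] at hq
        obtain ⟨p, hp, hpq⟩ := hq
        rw [Set.mem_toFinset] at hp
        exact ⟨p, hp, hpq⟩
      rw [Set.ncard_eq_toFinset_card']
      calc W2.toFinset.card ≤ N * (W2.toFinset.image pr).card := h1
        _ ≤ N * (C2 * N ^ (d - 1)) := Nat.mul_le_mul_left _ h2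
        _ = C2 * (N ^ (d - 1) * N) := by ring
        _ = C2 * N ^ d := by rw [← pow_succ, Nat.sub_add_cancel hd]
  calc W.ncard ≤ (W1 ∪ W2).ncard := Set.ncard_le_ncard hunion (Set.toFinite _)
    _ ≤ W1.ncard + W2.ncard := Set.ncard_union_le _ _
    _ ≤ D * (C1 * N ^ d) + C2 * N ^ d := Nat.add_le_add hW1 hW2
    _ = (D * C1 + C2) * N ^ d := by ring

end COUNT

theorem st_COUNT : ST_COUNT.{u} := by
  intro ι _ d D
  have h : COUNT.PP.{u} ι :=
    Finite.induction_empty_option (P := fun ι => COUNT.PP.{u} ι) (fun e h => COUNT.of_equiv e h)
      COUNT.empty (fun h => COUNT.option h) ι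
  exact h d D

end Pool.Agent.Helper92.GG
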