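import Pool.Agent.Helper92.GG.Stmts
import Pool.Agent.Helper92.GG.RK

/-! # Module LEMW: Lemma W (non-contraction) -/

set_option autoImplicit false

namespace Pool.Agent.Helper92.GG

open MvPolynomial
open Pool.Agent.Helper49.Girth (cl ty ty_zero ty_succ ty_add subset_cl mem_cl_of_mem cl_mono)

universe u

namespace LEMW

theorem ty_parity (σ : Bool) (n : ℕ) : ty σ n = if n % 2 = 0 then σ else !σ := by
  induction n with
  | zero => rfl
  | succ n ih =>
    rw [ty_succ, ih]
    rcases Nat.mod_two_eq_zero_or_one n with h | h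
    · rw [if_pos h, if_neg (by omega)]
    · rw [if_neg (by omega), if_pos (by omega), Bool.not_not]

section

variable {K : Type u} [Field K] {n : ℕ} {P : Ideal (MvPolynomial (Fin n ⊕ Fin n) K)}
  {L : Type u} [Field L] [Algebra K L]

theorem edge_symm {σ : Bool} {x y : Fin n → L} (h : Edge P σ x y) : Edge P (!σ) y x := by
  unfold Edge at h ⊢
  cases σ <;> exact h

theorem walk_rev {σ : Bool} {r : ℕ} {v : ℕ → Fin n → L} (h : IsWalk P σ r v) :
    IsWalk P (ty σ r) r (fun i => v (r - i)) := by
  intro i hi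
  have h1 := edge_symm (h (r - (i + 1)) (by omega))
  have e1 : r - (i + 1) + 1 = r - i := by omega
  rw [e1] at h1
  have e2 : (!ty σ (r - (i + 1))) = ty (ty σ r) i := by
    rw [← ty_succ, ← ty_add, ty_parity, ty_parity]
    have : (r - (i + 1) + 1) % 2 = (r + i) % 2 := by omega
    rw [this]
  rw [e2] at h1
  exact h1

theorem nb_rev {r : ℕ} {v : ℕ → Fin n → L} (h : NB r v) : NB r (fun i => v (r - i)) := by
  intro i hi heq
  have h1 := h (r - (i + 2)) (by omega)
  apply h1
  have e : r - (i + 2) + 2 = r - i := by omega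
  rw [e]
  exact heq.symm

theorem pts_succ (v : ℕ → Fin n → L) (a : ℕ) :
    pts v (Set.Iic (a + 1)) = pts v (Set.Iic a) ∪ Set.range (v (a + 1)) := by
  ext b
  simp only [pts, Set.mem_iUnion, Set.mem_Iic, Set.mem_union, exists_prop]
  constructor
  · rintro ⟨i, hi, hb⟩
    rcases Nat.lt_or_ge a i with h | h
    · right
      have : i = a + 1 := by omega
      rw [← this]; exact hb
    · left; exact ⟨i, h, hb⟩
  · rintro (⟨i, hi, hb⟩ | hb)
    · exact ⟨i, by omega, hb⟩
    · exact ⟨a + 1, le_refl _, hb⟩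

theorem pts_zero (v : ℕ → Fin n → L) : pts v (Set.Iic 0) = Set.range (v 0) := by
  ext b
  simp only [pts, Set.mem_iUnion, Set.mem_Iic, exists_prop]
  constructor
  · rintro ⟨i, hi, hb⟩
    have : i = 0 := by omega
    rw [← this]; exact hb
  · intro hb; exact ⟨0, le_refl _, hb⟩

theorem pts_finite (v : ℕ → Fin n → L) (a : ℕ) : (pts v (Set.Iic a)).Finite := by
  unfold pts
  exact (Set.finite_Iic a).biUnion (fun i _ => Set.finite_range _)

theorem range_sub_pts (v : ℕ → Fin n → L) {a i : ℕ} (h : i ≤ a) :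
    Set.range (v i) ⊆ pts v (Set.Iic a) := by
  intro b hb
  simp only [pts, Set.mem_iUnion, Set.mem_Iic, exists_prop]
  exact ⟨i, h, hb⟩

end

section

variable {K : Type u} [Field K] [IsAlgClosed K] {n m k : ℕ} (S : Sys K n m k)
  {L : Type u} [Field L] [Algebra K L]

theorem rk_step {σ : Bool} {x y : Fin n → L} (h : Edge S.P σ x y) {X : Set L} (hX : X.Finite)
    (hx : Set.range x ⊆ X) : rk K (X ∪ Set.range y) ≤ rk K X + k := by
  have h1 := rk_submod (K := K) (A := Set.range x) (B := X) (C := Set.range y)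
    (Set.finite_range _) hX (Set.finite_range _)
  have h2 := S.rkV L σ x y h
  have h3 := S.rkE L σ x y h
  have e : Set.range x ∪ X = X := Set.union_eq_self_of_subset_left hx
  rw [e, h2, h3] at h1
  have e2 : (m + 1) * k = m * k + k := by ring
  omega

theorem rk_upper {σ : Bool} (h l : ℕ → Fin n → L) (a b : ℕ) (hh : IsWalk S.P σ a h)
    (hl : IsWalk S.P σ b l) :
    rk K (pts h (Set.Iic a) ∪ pts l (Set.Iic b)) ≤
      rk K (Set.range (h 0) ∪ Set.range (l 0)) + (a + b) * k := by
  induction a with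
  | zero =>
    induction b with
    | zero => rw [pts_zero, pts_zero]; omega
    | succ b ihb =>
      have h1 := ihb (fun i hi => hl i (by omega))
      have h2 := rk_step S (hl b (by omega)) (X := pts h (Set.Iic 0) ∪ pts l (Set.Iic b))
        ((pts_finite _ _).union (pts_finite _ _))
        ((range_sub_pts l le_rfl).trans Set.subset_union_right)
      rw [pts_succ, ← Set.union_assoc]
      have e : (0 + (b + 1)) * k = (0 + b) * k + k := by ring
      omega
  | succ a iha =>
    have h1 := iha (fun i hi => hh i (by omega))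
    have h2 := rk_step S (hh a (by omega)) (X := pts h (Set.Iic a) ∪ pts l (Set.Iic b))
      ((pts_finite _ _).union (pts_finite _ _))
      ((range_sub_pts h le_rfl).trans Set.subset_union_left)
    rw [pts_succ]
    have e : (pts h (Set.Iic a) ∪ Set.range (h (a + 1))) ∪ pts l (Set.Iic b) =
        (pts h (Set.Iic a) ∪ pts l (Set.Iic b)) ∪ Set.range (h (a + 1)) := by
      ext c; simp only [Set.mem_union]; tauto
    rw [e]
    have e : (a + 1 + b) * k = (a + b) * k + k := by ring
    omega

/-- one step of the induction -/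
theorem step (hE : ST_ENDS.{u}) (σ : Bool) (a b : ℕ) (h l w : ℕ → Fin n → L)
    (hm : a + 1 + b + 1 ≤ m) (hh : IsWalk S.P σ (a + 1) h) (hl : IsWalk S.P σ b l)
    (hr : rk K (Set.range (h 0) ∪ Set.range (l 0)) + (a + 1 + b) * k ≤
      rk K (pts h (Set.Iic (a + 1)) ∪ pts l (Set.Iic b)))
    (hw : IsWalk S.P (ty σ (a + 1)) (a + 1 + b) w) (hnb : NB (a + 1 + b) w)
    (hw0 : w 0 = h (a + 1)) (hwe : w (a + 1 + b) = l b) :
    rk K (Set.range (h 0) ∪ Set.range (l 0)) + (a + b) * k ≤
      rk K (pts h (Set.Iic a) ∪ pts l (Set.Iic b)) ∧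
    ∃ w' : ℕ → Fin n → L, IsWalk S.P (ty σ a) (a + b) w' ∧ NB (a + b) w' ∧ w' 0 = h a ∧
      w' (a + b) = l b := by
  have hfin : (pts h (Set.Iic a) ∪ pts l (Set.Iic b)).Finite :=
    (pts_finite _ _).union (pts_finite _ _)
  have h2 := rk_step S (hh a (by omega)) hfin
    ((range_sub_pts h le_rfl).trans Set.subset_union_left)
  have eU : (pts h (Set.Iic a) ∪ Set.range (h (a + 1))) ∪ pts l (Set.Iic b) =
      (pts h (Set.Iic a) ∪ pts l (Set.Iic b)) ∪ Set.range (h (a + 1)) := by
    ext c; simp only [Set.mem_union]; tauto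
  have ek : (a + 1 + b) * k = (a + b) * k + k := by ring
  rw [pts_succ, eU] at hr
  refine ⟨by omega, ?_⟩
  by_cases hc : w 1 = h a
  · refine ⟨fun i => w (i + 1), ?_, ?_, hc, ?_⟩
    · intro i hi
      have h3 := hw (i + 1) (by omega)
      have e3 : ty (ty σ (a + 1)) (i + 1) = ty (ty σ a) i := by
        rw [← ty_add, ← ty_add, ty_parity, ty_parity]
        have : (a + 1 + (i + 1)) % 2 = (a + i) % 2 := by omega
        rw [this]
      rw [e3] at h3
      exact h3
    · intro i hi
      exact hnb (i + 1) (by omega)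
    · show w (a + b + 1) = l b
      have : a + b + 1 = a + 1 + b := by omega
      rw [this]; exact hwe
  · exfalso
    -- the walk through h a
    let v : ℕ → Fin n → L := fun i => if i = 0 then h a else w (i - 1)
    have hv0 : v 0 = h a := rfl
    have hvs : ∀ i, v (i + 1) = w i := by
      intro i
      show (if i + 1 = 0 then h a else w (i + 1 - 1)) = w i
      rw [if_neg (by omega)]
      rfl
    have hvw : IsWalk S.P (ty σ a) (a + 1 + b + 1) v := by
      intro i hi
      rcases Nat.eq_zero_or_pos i with hi0 | hi0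
      · subst hi0
        rw [hvs, hv0, hw0]
        exact hh a (by omega)
      · obtain ⟨j, rfl⟩ : ∃ j, i = j + 1 := ⟨i - 1, by omega⟩
        rw [hvs, hvs]
        have h3 := hw j (by omega)
        have e3 : ty (ty σ (a + 1)) j = ty (ty σ a) (j + 1) := by
          rw [← ty_add, ← ty_add]
          congr 1
          omega
        rw [e3] at h3
        exact h3
    have hvn : NB (a + 1 + b + 1) v := by
      intro i hi
      rcases Nat.eq_zero_or_pos i with hi0 | hi0
      · subst hi0
        rw [hv0, show (0 : ℕ) + 2 = 1 + 1 from rfl, hvs]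
        exact fun h' => hc h'.symm
      · obtain ⟨j, rfl⟩ : ∃ j, i = j + 1 := ⟨i - 1, by omega⟩
        rw [show j + 1 + 2 = (j + 2) + 1 from rfl, hvs, hvs]
        exact hnb j (by omega)
    have h4 := hE K n m k S L (ty σ a) (a + 1 + b + 1) v hm hvw hvn 1 (by omega)
    have hsub : Set.range (h (a + 1)) ⊆ cl K (pts h (Set.Iic a) ∪ pts l (Set.Iic b)) := by
      rintro _ ⟨c, rfl⟩
      have h5 := h4 c
      have hv1 : v 1 = h (a + 1) := (hvs 0).trans hw0
      rw [hv1, hv0, hvs (a + 1 + b), hwe] at h5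
      refine cl_mono ?_ h5
      exact Set.union_subset_union (range_sub_pts h le_rfl) (range_sub_pts l le_rfl)
    rw [rk_union_of_subset_cl hsub] at hr
    have h6 := rk_upper S h l a b (fun i hi => hh i (by omega)) hl
    have := S.one_le
    omega

theorem main (hE : ST_ENDS.{u}) (N : ℕ) : ∀ (σ : Bool) (a b : ℕ) (h l w : ℕ → Fin n → L),
    a + b = N → a + b + 1 ≤ m → IsWalk S.P σ a h → IsWalk S.P σ b l → h 0 ≠ l 0 →
    rk K (Set.range (h 0) ∪ Set.range (l 0)) + (a + b) * k ≤
      rk K (pts h (Set.Iic a) ∪ pts l (Set.Iic b)) →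
    IsWalk S.P (ty σ a) (a + b) w → NB (a + b) w → w 0 = h a → w (a + b) = l b → False := by
  induction N with
  | zero =>
    intro σ a b h l w hN hm hh hl hne hr hw hnb hw0 hwe
    have ha : a = 0 := by omega
    have hb : b = 0 := by omega
    subst ha; subst hb
    exact hne (hw0.symm.trans hwe)
  | succ N ih =>
    intro σ a b h l w hN hm hh hl hne hr hw hnb hw0 hwe
    rcases Nat.eq_zero_or_pos a with ha | ha
    · -- a = 0, use the other end
      subst ha
      obtain ⟨b', rfl⟩ : ∃ b', b = b' + 1 := ⟨b - 1, by omega⟩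
      have hw' := walk_rev hw
      have hnb' := nb_rev hnb
      have e1 : ty (ty σ 0) (0 + (b' + 1)) = ty σ (b' + 1) := by
        rw [← ty_add]; congr 1; omega
      rw [e1] at hw'
      have e2 : 0 + (b' + 1) = b' + 1 + 0 := by omega
      rw [e2] at hw' hnb'
      have hr' : rk K (Set.range (l 0) ∪ Set.range (h 0)) + (b' + 1 + 0) * k ≤
          rk K (pts l (Set.Iic (b' + 1)) ∪ pts h (Set.Iic 0)) := by
        rw [Set.union_comm (Set.range (l 0)), Set.union_comm (pts l _)]
        have e3 : (b' + 1 + 0) * k = (0 + (b' + 1)) * k := by ring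
        rw [e3]; exact hr
      obtain ⟨s1, w', s2, s3, s4, s5⟩ := step S hE σ b' 0 l h
        (fun i => w (b' + 1 + 0 - i)) (by omega) hl hh hr' hw' hnb' (by
          show w (b' + 1 + 0 - 0) = l (b' + 1)
          have : b' + 1 + 0 - 0 = 0 + (b' + 1) := by omega
          rw [this]; exact hwe) (by
          show w (b' + 1 + 0 - (b' + 1 + 0)) = h 0
          have : b' + 1 + 0 - (b' + 1 + 0) = 0 := by omega
          rw [this]; exact hw0)
      exact ih σ b' 0 l h w' (by omega) (by omega) (fun i hi => hl i (by omega)) hh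
        (Ne.symm hne) s1 s2 s3 s4 s5
    · obtain ⟨a', rfl⟩ : ∃ a', a = a' + 1 := ⟨a - 1, by omega⟩
      obtain ⟨s1, w', s2, s3, s4, s5⟩ := step S hE σ a' b h l w (by omega) hh hl hr hw hnb hw0 hwe
      exact ih σ a' b h l w' (by omega) (by omega) (fun i hi => hh i (by omega)) hl hne s1 s2 s3
        s4 s5

end

end LEMW

theorem st_LEMW (hE : ST_ENDS.{u}) : ST_LEMW.{u} := by
  intro K _ _ n m k S L _ _ σ a b h l hm hh hl hne hr
  rintro ⟨w, hw, hnb, hw0, hwe⟩
  exact LEMW.main S hE (a + b) σ a b h l w rfl hm hh hl hne hr hw hnb hw0 hwe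

end Pool.Agent.Helper92.GG
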