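import Pool.Agent.Helper92.GG.Stmts
import Pool.Agent.Helper92.GG.Walk

/-! # Module TYPE: uniqueness of the type of a generic walk and an independent vertex -/

set_option autoImplicit false

namespace Pool.Agent.Helper92.GG

open MvPolynomial
open Pool.Agent.Helper49.Girth (cl mem_cl mem_cl' coe_cl subset_cl mem_cl_of_mem cl_le_cl cl_mono
  root_mem_cl aeval_mem ty ty_zero ty_succ ty_add ty_two ty_add_two ty_not)

universe u

namespace TYPE

section gen

variable {K L L' : Type u} [Field K] [Field L] [Field L'] [Algebra K L] [Algebra K L']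

/-- closures in algebraically closed fields are algebraically closed -/
theorem isAlgClosed_cl [IsAlgClosed L] (s : Set L) : IsAlgClosed (cl K s) := by
  apply IsAlgClosed.of_exists_root
  intro p hm hirr
  have hinj : Function.Injective (algebraMap (cl K s) L) := Subtype.val_injective
  have hp0 : p ≠ 0 := hm.ne_zero
  have hdeg : (p.map (algebraMap (cl K s) L)).degree ≠ 0 := by
    rw [Polynomial.degree_map]
    exact (Polynomial.degree_pos_of_irreducible hirr).ne'
  obtain ⟨x, hx⟩ := IsAlgClosed.exists_root _ hdeg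
  have hx' : (p.map (algebraMap (cl K s) L)).eval x = 0 := hx
  have hmem : x ∈ cl K s := by
    apply root_mem_cl (p.map (algebraMap (cl K s) L))
    · exact (Polynomial.map_ne_zero_iff hinj).mpr hp0
    · intro n
      rw [Polynomial.coeff_map]
      exact (p.coeff n).2
    · exact hx'
  refine ⟨⟨x, hmem⟩, ?_⟩
  apply hinj
  rw [map_zero, ← hx', Polynomial.eval_map, Polynomial.eval, Polynomial.hom_eval₂]
  rfl

/-- the image of a set under an embedding of an intermediate field -/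
def im {E : IntermediateField K L} (t : Set L) (θ : E →ₐ[K] L') : Set L' := θ '' {b | (b : L) ∈ t}

theorem val_im {E : IntermediateField K L} {t : Set L} (h : t ⊆ E) :
    (Subtype.val '' {b : E | (b : L) ∈ t} : Set L) = t := by
  ext a
  constructor
  · rintro ⟨b, hb, rfl⟩; exact hb
  · intro ha; exact ⟨⟨a, h ha⟩, ha, rfl⟩

theorem pre_finite {E : IntermediateField K L} {t : Set L} (ht : t.Finite) :
    {b : E | (b : L) ∈ t}.Finite :=
  ht.preimage (Subtype.val_injective.injOn)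

theorem im_finite {E : IntermediateField K L} {t : Set L} (ht : t.Finite) (θ : E →ₐ[K] L') :
    (im t θ).Finite :=
  (pre_finite ht).image _

theorem im_rk {E : IntermediateField K L} {t : Set L} (h : t ⊆ E) (θ : E →ₐ[K] L') :
    rk K (im t θ) = rk K t := by
  unfold im
  rw [rk_image_val, val_im h]

theorem mem_cl_im {E : IntermediateField K L} {t : Set L} (ht : t.Finite) (h : t ⊆ E)
    (θ : E →ₐ[K] L') (b : E) (hb : (b : L) ∈ cl K t) : θ b ∈ cl K (im t θ) := by
  apply map_mem_cl_val _ θ (pre_finite ht)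
  rw [val_im h]
  exact hb

/-- restriction -/
noncomputable def res {E F : IntermediateField K L} (h : E ≤ F) (θ : F →ₐ[K] L') : E →ₐ[K] L' :=
  θ.comp (IntermediateField.inclusion h)

theorem res_apply {E F : IntermediateField K L} (h : E ≤ F) (θ : F →ₐ[K] L') (a : E) (b : F)
    (hb : (b : L) = a) : θ b = res h θ a := by
  have : b = IntermediateField.inclusion h a := Subtype.ext hb
  rw [this]; rfl

theorem im_res {E F : IntermediateField K L} (h : E ≤ F) (θ : F →ₐ[K] L') {t : Set L}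
    (ht : t ⊆ E) : im t (res h θ) = im t θ := by
  ext c
  constructor
  · rintro ⟨b, hb, rfl⟩
    exact ⟨⟨(b : L), h b.2⟩, hb, res_apply h θ b _ rfl⟩
  · rintro ⟨b, hb, rfl⟩
    exact ⟨⟨(b : L), ht hb⟩, hb, (res_apply h θ _ b rfl).symm⟩

/-- algebraic elements over an algebraically closed field -/
theorem surj_gen {M A : Type u} [Field M] [IsAlgClosed M] [CommRing A] [Algebra A L']
    (hA : Function.Injective (algebraMap A L')) (φ : M →+* L')
    (hr : ∀ a : A, ∃ b : M, φ b = algebraMap A L' a) (c : L') (hc : IsAlgebraic A c) :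
    ∃ b : M, φ b = c := by
  let _ : Algebra M L' := φ.toAlgebra
  have halg : IsAlgebraic M c := by
    obtain ⟨p, hp0, hp⟩ := hc
    set P : Polynomial L' := p.map (algebraMap A L') with hP
    have hlift : P ∈ Polynomial.lifts (algebraMap M L') := by
      rw [Polynomial.lifts_iff_coeff_lifts]
      intro n
      rw [hP, Polynomial.coeff_map]
      exact hr _
    obtain ⟨q, hq⟩ := hlift
    have hq' : q.map (algebraMap M L') = P := hq
    refine ⟨q, ?_, ?_⟩
    · rintro rfl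
      rw [Polynomial.map_zero] at hq'
      rw [hP] at hq'
      exact hp0 ((Polynomial.map_eq_zero_iff hA).mp hq'.symm)
    · rw [Polynomial.aeval_def, ← Polynomial.eval_map, hq', hP, Polynomial.eval_map]
      exact hp
  have hint : IsIntegral M c := halg.isIntegral
  have hdeg := IsAlgClosed.degree_eq_one_of_irreducible (k := M) (minpoly.irreducible hint)
  obtain ⟨a, ha⟩ := minpoly.mem_range_of_degree_eq_one M c hdeg
  exact ⟨a, ha⟩

theorem surj_abs {E : IntermediateField K L} [IsAlgClosed E] {t : Set L}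
    (θ : E →ₐ[K] L') (c : L') (hc : c ∈ cl K (im t θ)) : ∃ b : E, θ b = c := by
  refine surj_gen (A := Algebra.adjoin K (im t θ)) Subtype.val_injective (θ : E →+* L') ?_ c
    (mem_cl'.mp hc)
  intro a
  have h1 : Algebra.adjoin K (im t θ) ≤ θ.range := by
    apply Algebra.adjoin_le
    rintro _ ⟨b, hb, rfl⟩
    exact ⟨b, rfl⟩
  obtain ⟨b, hb⟩ := h1 a.2
  exact ⟨b, hb⟩

theorem surj [IsAlgClosed L] {s : Set L} (θ : cl K s →ₐ[K] L')
    (c : L') (hc : c ∈ cl K (im s θ)) : ∃ b : cl K s, θ b = c := by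
  have hM : IsAlgClosed (cl K s) := isAlgClosed_cl s
  exact surj_abs θ c hc

theorem indep_of_rk {κ : Type} [Finite κ] {x : κ → L} (h : rk K (Set.range x) = Nat.card κ) :
    AlgebraicIndependent K x := by
  obtain ⟨J, h1, -, h3⟩ := exists_basis_family (K := K) x
  rw [h] at h3
  have hJ : J = Set.univ := by
    rw [← Set.ncard_univ] at h3
    exact Set.eq_of_subset_of_ncard_le (Set.subset_univ _) h3.ge (Set.toFinite _)
  subst hJ
  have h4 := h1.comp (fun i : κ => (⟨i, Set.mem_univ i⟩ : (Set.univ : Set κ))) (by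
    intro a b hab
    exact congrArg Subtype.val hab)
  exact h4

/-- corestriction of an embedding -/
noncomputable def corA {E : IntermediateField K L} {F : IntermediateField K L'}
    (θ : E →ₐ[K] L') (h : ∀ b, θ b ∈ F) : E →+* F :=
  (θ : E →+* L').codRestrict F h

theorem eval_corA {E : IntermediateField K L} {F : IntermediateField K L'}
    (θ : E →ₐ[K] L') (h : ∀ b, θ b ∈ F) {ι : Type}
    (y : ι → L') (f : MvPolynomial ι E) :
    aeval y (map (corA θ h) f) = eval₂ (θ : E →+* L') y f := by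
  rw [aeval_def, eval₂_map]
  rfl

theorem corA_inj {E : IntermediateField K L} {F : IntermediateField K L'}
    (θ : E →ₐ[K] L') (h : ∀ b, θ b ∈ F) : Function.Injective (corA θ h) := (corA θ h).injective

theorem corA_surj {E : IntermediateField K L} {F : IntermediateField K L'}
    (θ : E →ₐ[K] L') (h : ∀ b, θ b ∈ F) (h' : ∀ c ∈ F, ∃ b, θ b = c) :
    Function.Surjective (corA θ h) := by
  intro c
  obtain ⟨b, hb⟩ := h' c c.2
  exact ⟨b, Subtype.ext hb⟩

theorem cor_mem {s : Set L} (hs : s.Finite) (θ : cl K s →ₐ[K] L') (b : cl K s) :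
    θ b ∈ cl K (im s θ) := mem_cl_im hs (subset_cl s) θ b b.2

/-- corestriction of an embedding of a closure -/
noncomputable def cor {s : Set L} (hs : s.Finite) (θ : cl K s →ₐ[K] L') :
    cl K s →+* cl K (im s θ) := corA θ (cor_mem hs θ)

theorem cor_inj {s : Set L} (hs : s.Finite) (θ : cl K s →ₐ[K] L') :
    Function.Injective (cor hs θ) := corA_inj θ (cor_mem hs θ)

theorem cor_surj [IsAlgClosed L] {s : Set L} (hs : s.Finite) (θ : cl K s →ₐ[K] L') :
    Function.Surjective (cor hs θ) := corA_surj θ (cor_mem hs θ) (surj θ)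

theorem eval_cor {s : Set L} (hs : s.Finite) (θ : cl K s →ₐ[K] L') {ι : Type}
    (y : ι → L') (f : MvPolynomial ι (cl K s)) :
    aeval y (map (cor hs θ) f) = eval₂ (θ : cl K s →+* L') y f := eval_corA θ (cor_mem hs θ) y f

/-- values of polynomials under embeddings -/
theorem eval_hom {E F : IntermediateField K L} (hEF : E ≤ F) (θ0 : E →ₐ[K] L')
    (θ : F →ₐ[K] L') (hθ : ∀ (a : E) (b : F), (b : L) = a → θ b = θ0 a)
    {ι : Type} (y : ι → L) (y' : ι → L') (hy : ∀ i, y i ∈ F)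
    (hy' : ∀ i (b : F), (b : L) = y i → θ b = y' i) (f : MvPolynomial ι E) :
    aeval y f = 0 ↔ eval₂ (θ0 : E →+* L') y' f = 0 := by
  set z : ι → F := fun i => ⟨y i, hy i⟩ with hz
  set j : E →+* F := (IntermediateField.inclusion hEF).toRingHom with hj
  have h1 : algebraMap F L (eval₂ j z f) = aeval y f := by
    rw [eval₂_comp_left, aeval_def]
    have e1 : (algebraMap F L).comp j = algebraMap E L := RingHom.ext fun a => rfl
    have e2 : (algebraMap F L) ∘ z = y := funext fun i => rfl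
    rw [e1, e2]
  have h3 : (θ : F →+* L') (eval₂ j z f) = eval₂ (θ0 : E →+* L') y' f := by
    rw [eval₂_comp_left]
    have e1 : (θ : F →+* L').comp j = (θ0 : E →+* L') :=
      RingHom.ext fun a => hθ a _ rfl
    have e2 : (θ : F →+* L') ∘ z = y' := funext fun i => hy' i _ rfl
    rw [e1, e2]
  rw [← h1, ← h3]
  rw [map_eq_zero_iff _ (algebraMap F L).injective,
    map_eq_zero_iff _ (θ : F →+* L').injective]

/-- free extension -/
theorem ext_free (hCR : ST_CONJR.{u}) [IsAlgClosed L'] {s : Set L} (hs : s.Finite)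
    (θ0 : cl K s →ₐ[K] L') {ι : Type} [Finite ι] (y : ι → L) (y2 : ι → L') (J : Set ι)
    (h1 : AlgebraicIndependent (cl K s) (fun j : J => y j))
    (h2 : ∀ i, y i ∈ cl (cl K s) (Set.range fun j : J => y j))
    (h3 : AlgebraicIndependent (cl K (im s θ0)) (fun j : J => y2 j)) :
    ∃ θ : cl K (s ∪ Set.range y) →ₐ[K] L',
      ∀ (a : cl K s) (b : cl K (s ∪ Set.range y)), (b : L) = a → θ b = θ0 a := by
  obtain ⟨θ, hθ1, -⟩ := hCR K L L' s θ0 J (fun j : J => y j) (fun j : J => y2 j) (by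
    intro f
    have e1 : aeval (fun j : J => y j) f = 0 ↔ f = 0 :=
      ⟨fun h => (algebraicIndependent_iff.mp h1) f h, fun h => by rw [h, map_zero]⟩
    have e2 : eval₂ (θ0 : cl K s →+* L') (fun j : J => y2 j) f = 0 ↔ f = 0 := by
      rw [← eval_cor hs]
      constructor
      · intro h
        have h4 := (algebraicIndependent_iff.mp h3) _ h
        exact map_injective _ (cor_inj hs θ0) (by rw [h4, map_zero])
      · intro h
        rw [h, map_zero, map_zero]
    rw [e1, e2])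
  have hle : cl K (s ∪ Set.range y) ≤ cl K (s ∪ Set.range fun j : J => y j) := by
    apply cl_le_cl
    rintro a (ha | ⟨i, rfl⟩)
    · exact mem_cl_of_mem (Or.inl ha)
    · exact cl_cl_mem.mp (h2 i)
  refine ⟨res hle θ, ?_⟩
  intro a b hb
  rw [← res_apply hle θ b ⟨(b : L), hle b.2⟩ rfl]
  exact hθ1 a _ hb

theorem im_mono {E : IntermediateField K L} {t t' : Set L} (h : t ⊆ t') (θ0 : E →ₐ[K] L') :
    im t θ0 ⊆ im t' θ0 := by
  rintro _ ⟨b, hb, rfl⟩
  exact ⟨b, h hb, rfl⟩

/-- the rank of a union with the range of a tuple, transported by an embedding -/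
theorem rk_im_union {E F : IntermediateField K L} (θ : F →ₐ[K] L') (θ0 : E →ₐ[K] L')
    (hsu : E ≤ F)
    (hθ : ∀ (a : E) (b : F), (b : L) = a → θ b = θ0 a) {t : Set L}
    (ht : t ⊆ E) {ι : Type} (y : ι → L) (y' : ι → L') (hy : ∀ i, y i ∈ F)
    (hy' : ∀ i (b : F), (b : L) = y i → θ b = y' i) (J : Set ι) :
    rk K (im t θ0 ∪ (Set.range fun j : J => y' j)) = rk K (t ∪ (Set.range fun j : J => y j)) := by
  have hsub : t ∪ (Set.range fun j : J => y j) ⊆ F := by
    rintro a (ha | ⟨j, rfl⟩)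
    · exact hsu (ht ha)
    · exact hy j
  have h1 := im_rk hsub θ
  rw [← h1]
  congr 1
  ext c
  constructor
  · rintro (⟨b, hb, rfl⟩ | ⟨j, rfl⟩)
    · exact ⟨⟨(b : L), hsu b.2⟩, Or.inl hb, hθ b _ rfl⟩
    · exact ⟨⟨y j, hy j⟩, Or.inr ⟨j, rfl⟩, hy' j _ rfl⟩
  · rintro ⟨b, hb | ⟨j, hj⟩, rfl⟩
    · left
      exact ⟨⟨(b : L), ht hb⟩, hb, (hθ _ _ rfl).symm⟩
    · right
      refine ⟨j, ?_⟩
      exact (hy' j b hj.symm).symm

/-- transport of linear disjointness -/
theorem ldt (hLD : ST_LD.{u}) (hCR : ST_CONJR.{u}) [IsAlgClosed L] [IsAlgClosed L']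
    {s t : Set L} (hs : s.Finite) (hts : t ⊆ s) (θ0 : cl K s →ₐ[K] L') {ι : Type} [Finite ι]
    (y : ι → L) (y2 : ι → L')
    (h1 : rk K (s ∪ Set.range y) + rk K t = rk K s + rk K (t ∪ Set.range y))
    (h2 : rk K (im s θ0 ∪ Set.range y2) + rk K t = rk K s + rk K (im t θ0 ∪ Set.range y2))
    (h3 : ∀ f : MvPolynomial ι (cl K t), aeval y f = 0 ↔
      eval₂ (res (cl_mono hts) θ0 : cl K t →+* L') y2 f = 0) :
    ∀ f : MvPolynomial ι (cl K s), aeval y f = 0 ↔ eval₂ (θ0 : cl K s →+* L') y2 f = 0 := by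
  have ht : t.Finite := hs.subset hts
  set θt : cl K t →ₐ[K] L' := res (cl_mono hts) θ0 with hθt
  have hfy : (Set.range y).Finite := Set.finite_range y
  have hfy2 : (Set.range y2).Finite := Set.finite_range y2
  have his := im_finite hs θ0
  have hit := im_finite ht θ0
  have hrs := im_rk (subset_cl s) θ0
  have hrt := im_rk (hts.trans (subset_cl s)) θ0
  have himt : im t θt = im t θ0 := im_res (cl_mono hts) θ0 (subset_cl t)
  -- embedding over t
  obtain ⟨θ3, a1, a2⟩ := hCR K L L' t θt ι y y2 h3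
  -- basis
  obtain ⟨J, b1, b2, b3⟩ := exists_basis_family (K := cl K t) y
  have hfJ : (Set.range fun j : J => y j).Finite := Set.finite_range _
  have hfJ2 : (Set.range fun j : J => y2 j).Finite := Set.finite_range _
  have hsubJ : (Set.range fun j : J => y j) ⊆ Set.range y := by
    rintro _ ⟨j, rfl⟩; exact ⟨j, rfl⟩
  have hsubJ2 : (Set.range fun j : J => y2 j) ⊆ Set.range y2 := by
    rintro _ ⟨j, rfl⟩; exact ⟨j, rfl⟩
  have b2' : ∀ i, y i ∈ cl K (t ∪ Set.range fun j : J => y j) := fun i => cl_cl_mem.mp (b2 i)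
  have hJcard : rk (cl K t) (Set.range fun j : J => y j) = J.ncard := by
    rw [rk_range_of_algebraicIndependent b1, Nat.card_coe_set_eq]
  -- ranks over t
  have c1 := rk_union_eq (K := K) ht hfy
  have c2 := rk_union_eq (K := K) ht hfJ
  have c3 := rk_union_eq (K := K) hs hfy
  have c4 := rk_union_eq (K := K) hs hfJ
  rw [hJcard] at c2
  -- closure equality over s
  have d1 : rk K (s ∪ Set.range y) = rk K (s ∪ Set.range fun j : J => y j) := by
    apply le_antisymm
    · apply rk_le_of_subset_cl (hs.union hfJ)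
      rintro a (ha | ⟨i, rfl⟩)
      · exact mem_cl_of_mem (Or.inl ha)
      · exact cl_mono (Set.union_subset_union_left _ hts) (b2' i)
    · exact rk_mono (hs.union hfy) (Set.union_subset_union_right _ hsubJ)
  have e1 : AlgebraicIndependent (cl K s) (fun j : J => y j) := by
    apply indep_of_rk
    rw [Nat.card_coe_set_eq]
    rw [b3]
    omega
  have e2 : ∀ i, y i ∈ cl (cl K s) (Set.range fun j : J => y j) := fun i =>
    cl_cl_mem.mpr (cl_mono (Set.union_subset_union_left _ hts) (b2' i))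
  -- y2 over t
  have hyu : ∀ i, y i ∈ cl K (t ∪ Set.range y) := fun i => mem_cl_of_mem (Or.inr ⟨i, rfl⟩)
  have hθ3t : ∀ (a : cl K t) (b : cl K (t ∪ Set.range y)), (b : L) = a → θ3 b = θt a := a1
  have f1 := rk_im_union θ3 θt (cl_mono Set.subset_union_left) hθ3t (subset_cl t) y y2 hyu a2 J
  rw [himt] at f1
  have f2 := rk_im_union θ3 θt (cl_mono Set.subset_union_left) hθ3t (subset_cl t) y y2 hyu a2
    Set.univ
  rw [himt] at f2
  have eu : (Set.range fun j : (Set.univ : Set ι) => y j) = Set.range y := by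
    ext a; constructor
    · rintro ⟨j, rfl⟩; exact ⟨j, rfl⟩
    · rintro ⟨j, rfl⟩; exact ⟨⟨j, Set.mem_univ j⟩, rfl⟩
  have eu2 : (Set.range fun j : (Set.univ : Set ι) => y2 j) = Set.range y2 := by
    ext a; constructor
    · rintro ⟨j, rfl⟩; exact ⟨j, rfl⟩
    · rintro ⟨j, rfl⟩; exact ⟨⟨j, Set.mem_univ j⟩, rfl⟩
  rw [eu, eu2] at f2
  have f3 : ∀ i, y2 i ∈ cl K (im t θ0 ∪ Set.range fun j : J => y2 j) := by
    have g1 : rk K (im t θ0 ∪ Set.range y2) ≤ rk K (im t θ0 ∪ Set.range fun j : J => y2 j) := by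
      rw [f1, f2]
      apply rk_le_of_subset_cl (ht.union hfJ)
      rintro a (ha | ⟨i, rfl⟩)
      · exact mem_cl_of_mem (Or.inl ha)
      · exact b2' i
    have g2 := subset_cl_of_rk_le (K := K) (hit.union hfy2)
      (Set.union_subset_union_right _ hsubJ2) g1
    intro i
    exact g2 (Or.inr ⟨i, rfl⟩)
  have d2 : rk K (im s θ0 ∪ Set.range y2) = rk K (im s θ0 ∪ Set.range fun j : J => y2 j) := by
    apply le_antisymm
    · apply rk_le_of_subset_cl (his.union hfJ2)
      rintro a (ha | ⟨i, rfl⟩)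
      · exact mem_cl_of_mem (Or.inl ha)
      · exact cl_mono (Set.union_subset_union_left _ (im_mono hts θ0)) (f3 i)
    · exact rk_mono (his.union hfy2) (Set.union_subset_union_right _ hsubJ2)
  have c5 := rk_union_eq (K := K) his hfJ2
  have e3 : AlgebraicIndependent (cl K (im s θ0)) (fun j : J => y2 j) := by
    apply indep_of_rk
    rw [Nat.card_coe_set_eq, b3]
    omega
  obtain ⟨θ, hθ⟩ := ext_free hCR hs θ0 y y2 J e1 e2 e3
  -- the images of y
  have hyS : ∀ i, y i ∈ cl K (s ∪ Set.range y) := fun i => mem_cl_of_mem (Or.inr ⟨i, rfl⟩)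
  let y' : ι → L' := fun i => θ ⟨y i, hyS i⟩
  have hy' : ∀ i (b : cl K (s ∪ Set.range y)), (b : L) = y i → θ b = y' i := by
    intro i b hb
    have : b = ⟨y i, hyS i⟩ := Subtype.ext hb
    rw [this]
  have hle : cl K s ≤ cl K (s ∪ Set.range y) := cl_mono Set.subset_union_left
  have hlet : cl K t ≤ cl K (s ∪ Set.range y) := (cl_mono hts).trans hle
  have hθt' : ∀ (a : cl K t) (b : cl K (s ∪ Set.range y)), (b : L) = a → θ b = θt a := by
    intro a b hb
    rw [hθt, ← res_apply (cl_mono hts) θ0 a ⟨(a : L), cl_mono hts a.2⟩ rfl]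
    exact hθ _ b hb
  have kt : ∀ f : MvPolynomial ι (cl K t), aeval y' (map (cor ht θt) f) = 0 ↔
      aeval y2 (map (cor ht θt) f) = 0 := by
    intro f
    rw [eval_cor, eval_cor]
    rw [← eval_hom hlet θt θ hθt' y y' hyS hy' f]
    exact h3 f
  have hmt : Function.Surjective (map (cor ht θt) : MvPolynomial ι (cl K t) →
      MvPolynomial ι (cl K (im t θt))) := map_surjective _ (cor_surj ht θt)
  have spt : Spec (cl K (im t θt)) y' y2 ∧ Spec (cl K (im t θt)) y2 y' := by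
    constructor
    · intro g hg
      obtain ⟨f, rfl⟩ := hmt g
      exact (kt f).mp hg
    · intro g hg
      obtain ⟨f, rfl⟩ := hmt g
      exact (kt f).mpr hg
  rw [himt] at spt
  -- rank conditions
  have r1 : rk K (im s θ0 ∪ Set.range y') = rk K (s ∪ Set.range y) := by
    have := rk_im_union θ θ0 hle hθ (subset_cl s) y y' hyS hy' Set.univ
    have eu3 : (Set.range fun j : (Set.univ : Set ι) => y' j) = Set.range y' := by
      ext a; constructor
      · rintro ⟨j, rfl⟩; exact ⟨j, rfl⟩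
      · rintro ⟨j, rfl⟩; exact ⟨⟨j, Set.mem_univ j⟩, rfl⟩
    rw [eu3, eu] at this
    exact this
  have r2 : rk K (im t θ0 ∪ Set.range y') = rk K (t ∪ Set.range y) := by
    have := rk_im_union θ θ0 hle hθ (hts.trans (subset_cl s)) y y' hyS hy' Set.univ
    have eu3 : (Set.range fun j : (Set.univ : Set ι) => y' j) = Set.range y' := by
      ext a; constructor
      · rintro ⟨j, rfl⟩; exact ⟨j, rfl⟩
      · rintro ⟨j, rfl⟩; exact ⟨⟨j, Set.mem_univ j⟩, rfl⟩
    rw [eu3, eu] at this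
    exact this
  have l1 := hLD K L' (im t θ0) (im s θ0) hit his (im_mono hts θ0) ι y' y2 (by
    rw [r1, r2, hrs, hrt]; exact h1) spt.1
  have l2 := hLD K L' (im t θ0) (im s θ0) hit his (im_mono hts θ0) ι y2 y' (by
    rw [hrs, hrt]; exact h2) spt.2
  intro f
  rw [eval_hom hle θ0 θ hθ y y' hyS hy' f, ← eval_cor hs, ← eval_cor hs]
  exact ⟨l1 _, l2 _⟩

/-- over an algebraically closed base the closure of the empty set is trivial -/
theorem mem_cl_empty [IsAlgClosed K] {a : L} (ha : a ∈ cl K (∅ : Set L)) :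
    ∃ b : K, algebraMap K L b = a := by
  refine surj_gen (A := Algebra.adjoin K (∅ : Set L)) Subtype.val_injective (algebraMap K L) ?_ a
    (mem_cl'.mp ha)
  intro c
  have h1 : (c : L) ∈ (⊥ : Subalgebra K L) := by
    rw [← Algebra.adjoin_empty]
    exact c.2
  obtain ⟨b, hb⟩ := Algebra.mem_bot.mp h1
  exact ⟨b, hb⟩

theorem bot_case {E : IntermediateField K L} (hE : ∀ a : E, ∃ b : K, algebraMap K E b = a)
    (θ : E →ₐ[K] L') {ι : Type} (y : ι → L) (y' : ι → L') (h : Conj K y y')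
    (f : MvPolynomial ι E) : aeval y f = 0 ↔ eval₂ (θ : E →+* L') y' f = 0 := by
  obtain ⟨f0, rfl⟩ := map_surjective (algebraMap K E) hE f
  have e1 : aeval y (map (algebraMap K E) f0) = aeval y f0 := aeval_map_algebraMap E y f0
  have e2 : eval₂ (θ : E →+* L') y' (map (algebraMap K E) f0) = aeval y' f0 := by
    rw [eval₂_map, aeval_def]
    congr 1
    exact RingHom.ext fun a => θ.commutes a
  rw [e1, e2]
  exact h f0

end gen

section walk

variable {K : Type u} [Field K] [IsAlgClosed K] {n m k : ℕ} (S : Sys K n m k)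

theorem im_range {L L' : Type u} [Field L] [Field L'] [Algebra K L] [Algebra K L']
    {E : IntermediateField K L} (θ : E →ₐ[K] L') (x : Fin n → L) (x' : Fin n → L')
    (hx : ∀ c, x c ∈ E) (hx' : ∀ c (b : E), (b : L) = x c → θ b = x' c) :
    im (Set.range x) θ = Set.range x' := by
  ext a
  constructor
  · rintro ⟨b, ⟨c, hc⟩, rfl⟩
    exact ⟨c, (hx' c b hc.symm).symm⟩
  · rintro ⟨c, rfl⟩
    exact ⟨⟨x c, hx c⟩, ⟨c, rfl⟩, hx' c _ rfl⟩

/-- neighbours of corresponding vertices are conjugate -/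
theorem nbr (hC : ST_CONJ.{u}) (hCR : ST_CONJR.{u}) (hIRR : ST_IRR.{u})
    {L₁ L₂ : Type u} [Field L₁] [Algebra K L₁] [IsAlgClosed L₁] [Field L₂] [Algebra K L₂]
    [IsAlgClosed L₂] {σ : Bool} {x1 y1 : Fin n → L₁} {x2 y2 : Fin n → L₂}
    (h1 : Edge S.P σ x1 y1) (h2 : Edge S.P σ x2 y2) (θt : cl K (Set.range x1) →ₐ[K] L₂)
    (hθt : ∀ c (b : cl K (Set.range x1)), (b : L₁) = x1 c → θt b = x2 c) :
    ∀ f : MvPolynomial (Fin n) (cl K (Set.range x1)), aeval y1 f = 0 ↔
      eval₂ (θt : cl K (Set.range x1) →+* L₂) y2 f = 0 := by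
  have hfx := Set.finite_range x1
  have him : im (Set.range x1) θt = Set.range x2 :=
    im_range θt x1 x2 (fun c => mem_cl_of_mem ⟨c, rfl⟩) hθt
  obtain ⟨θe, he⟩ := hC K L₁ L₂ (Fin n ⊕ Fin n) (Sum.elim x1 y1) (Sum.elim x2 y2) (h1.conj h2)
  obtain ⟨J, b1, b2, b3⟩ := exists_basis_family (K := cl K (Set.range x1)) y1
  have hfJ : (Set.range fun j : J => y1 j).Finite := Set.finite_range _
  have hfJ2 : (Set.range fun j : J => y2 j).Finite := Set.finite_range _
  have hJcard : rk (cl K (Set.range x1)) (Set.range fun j : J => y1 j) = J.ncard := by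
    rw [rk_range_of_algebraicIndependent b1, Nat.card_coe_set_eq]
  have hr1 : rk K (Set.range x2 ∪ Set.range fun j : J => y2 j) =
      rk K (Set.range x1 ∪ Set.range fun j : J => y1 j) := by
    have hsub : (Set.range x1 ∪ Set.range fun j : J => y1 j) ⊆
        cl K (Set.range (Sum.elim x1 y1)) := by
      rintro a (⟨c, rfl⟩ | ⟨j, rfl⟩)
      · exact mem_cl_of_mem ⟨Sum.inl c, rfl⟩
      · exact mem_cl_of_mem ⟨Sum.inr j, rfl⟩
    have h3 := im_rk hsub θe
    rw [← h3]
    congr 1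
    ext a
    constructor
    · rintro (⟨c, rfl⟩ | ⟨j, rfl⟩)
      · exact ⟨⟨x1 c, mem_cl_of_mem ⟨Sum.inl c, rfl⟩⟩, Or.inl ⟨c, rfl⟩, he (Sum.inl c) _ rfl⟩
      · exact ⟨⟨y1 j, mem_cl_of_mem ⟨Sum.inr j, rfl⟩⟩, Or.inr ⟨j, rfl⟩, he (Sum.inr j) _ rfl⟩
    · rintro ⟨b, ⟨c, hc⟩ | ⟨j, hj⟩, rfl⟩
      · left
        exact ⟨c, (he (Sum.inl c) b hc.symm).symm⟩
      · right
        exact ⟨j, (he (Sum.inr j) b hj.symm).symm⟩
  have hr2 : rk K (Set.range x2) = rk K (Set.range x1) := by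
    rw [S.rk_vtx h1.vtx, S.rk_vtx h2.vtx]
  have e3 : AlgebraicIndependent (cl K (im (Set.range x1) θt)) (fun j : J => y2 j) := by
    apply indep_of_rk
    rw [Nat.card_coe_set_eq]
    have c1 := rk_union_eq (K := K) (im_finite hfx θt) hfJ2
    have c2 := rk_union_eq (K := K) hfx hfJ
    have c3 : rk K (im (Set.range x1) θt ∪ Set.range fun j : J => y2 j) =
      rk K (Set.range x1 ∪ Set.range fun j : J => y1 j) := by rw [him, hr1]
    have c4 : rk K (im (Set.range x1) θt) = rk K (Set.range x1) := by rw [him, hr2]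
    omega
  obtain ⟨θ', hθ'⟩ := ext_free hCR hfx θt y1 y2 J b1 b2 e3
  have hxu : ∀ c, x1 c ∈ cl K (Set.range x1 ∪ Set.range y1) :=
    fun c => mem_cl_of_mem (Or.inl ⟨c, rfl⟩)
  have hyu : ∀ c, y1 c ∈ cl K (Set.range x1 ∪ Set.range y1) :=
    fun c => mem_cl_of_mem (Or.inr ⟨c, rfl⟩)
  let y'' : Fin n → L₂ := fun c => θ' ⟨y1 c, hyu c⟩
  have hy'' : ∀ c (b : cl K (Set.range x1 ∪ Set.range y1)), (b : L₁) = y1 c → θ' b = y'' c := by
    intro c b hb
    have : b = ⟨y1 c, hyu c⟩ := Subtype.ext hb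
    rw [this]
  have hx'' : ∀ c (b : cl K (Set.range x1 ∪ Set.range y1)), (b : L₁) = x1 c → θ' b = x2 c := by
    intro c b hb
    rw [hθ' ⟨x1 c, mem_cl_of_mem ⟨c, rfl⟩⟩ b hb]
    exact hθt c _ rfl
  have hedge : Edge S.P σ x2 y'' := (edge_map_cl θ' hxu hyu hx'' hy'').mp h1
  have s1 : Spec (cl K (im (Set.range x1) θt)) y'' y2 := by
    rw [him]
    exact hIRR K n m k S L₂ σ x2 y'' y2 hedge h2
  have s2 : Spec (cl K (im (Set.range x1) θt)) y2 y'' := by
    rw [him]
    exact hIRR K n m k S L₂ σ x2 y2 y'' h2 hedge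
  intro f
  rw [eval_hom (cl_mono Set.subset_union_left) θt θ' hθ' y1 y'' hyu hy'' f, ← eval_cor hfx,
    ← eval_cor hfx]
  exact ⟨s1 _, s2 _⟩

theorem rkA {L : Type u} [Field L] [Algebra K L] {σ ρ : Bool} {r : ℕ} {v : ℕ → Fin n → L}
    {q : Fin n → L} (hv : IsWalk S.P σ r v) (h0 : Vtx S.P σ (v 0)) (hq : Vtx S.P ρ q)
    (hr : rk K (pts v (Set.Iic r) ∪ Set.range q) = m * k + r * k + m * k) {i : ℕ} (hi : i ≤ r) :
    rk K (pts v (Set.Iic i) ∪ Set.range q) = m * k + i * k + m * k := by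
  have hfq := Set.finite_range q
  have h1 : rk K (pts v (Set.Iic i) ∪ Set.range q) ≤ m * k + i * k + m * k := by
    refine (rk_union_le (pts_Iic_finite v i) hfq).trans ?_
    rw [S.rk_vtx hq]
    have := S.rk_pts_le (hv.mono hi) h0
    omega
  have h2 := S.rk_walk_le (A := pts v (Set.Iic i) ∪ Set.range q)
    (hv.shift i (r' := r - i) (by omega)) ((pts_Iic_finite v i).union hfq) (by
      intro a ha
      exact mem_cl_of_mem (Or.inl (range_subset_pts v (Set.mem_Iic.mpr (le_refl i)) ha)))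
  have h3 : rk K (pts v (Set.Iic r) ∪ Set.range q) ≤
      rk K (pts v (Set.Iic i) ∪ Set.range q ∪ pts (fun j => v (i + j)) (Set.Iic (r - i))) := by
    apply rk_mono (((pts_Iic_finite v i).union hfq).union (pts_Iic_finite _ _))
    rintro a (ha | ha)
    · obtain ⟨j, hj, c, rfl⟩ := mem_pts.mp ha
      have hj' : j ≤ r := hj
      by_cases hji : j ≤ i
      · exact Or.inl (Or.inl (coord_mem_pts v (Set.mem_Iic.mpr hji) c))
      · right
        rw [pts_shift]
        exact coord_mem_pts v (Set.mem_Icc.mpr ⟨by omega, by omega⟩) c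
    · exact Or.inl (Or.inr ha)
  have h4 : r * k = i * k + (r - i) * k := by
    rw [← Nat.add_mul]; congr 1; omega
  omega

theorem main (hLD : ST_LD.{u}) (hC : ST_CONJ.{u}) (hCR : ST_CONJR.{u}) (hIRR : ST_IRR.{u})
    {L₁ L₂ : Type u} [Field L₁] [Algebra K L₁] [IsAlgClosed L₁] [Field L₂] [Algebra K L₂]
    [IsAlgClosed L₂] {σ ρ : Bool} {r : ℕ} {v₁ : ℕ → Fin n → L₁} {v₂ : ℕ → Fin n → L₂}
    {q₁ : Fin n → L₁} {q₂ : Fin n → L₂} (w1 : IsWalk S.P σ r v₁) (w2 : IsWalk S.P σ r v₂)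
    (x1 : Vtx S.P σ (v₁ 0)) (x2 : Vtx S.P σ (v₂ 0)) (z1 : Vtx S.P ρ q₁) (z2 : Vtx S.P ρ q₂)
    (r1 : rk K (pts v₁ (Set.Iic r) ∪ Set.range q₁) = m * k + r * k + m * k)
    (r2 : rk K (pts v₂ (Set.Iic r) ∪ Set.range q₂) = m * k + r * k + m * k) :
    ∀ i ≤ r, ∃ θ : cl K (pts v₁ (Set.Iic i) ∪ Set.range q₁) →ₐ[K] L₂,
      (∀ j ≤ i, ∀ (c : Fin n) (b : cl K (pts v₁ (Set.Iic i) ∪ Set.range q₁)),
        (b : L₁) = v₁ j c → θ b = v₂ j c) ∧
      (∀ (c : Fin n) (b : cl K (pts v₁ (Set.Iic i) ∪ Set.range q₁)),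
        (b : L₁) = q₁ c → θ b = q₂ c) := by
  intro i
  induction i with
  | zero =>
    intro _
    rw [pts_Iic_zero]
    obtain ⟨θ00, h00⟩ := hC K L₁ L₂ (Fin n) (v₁ 0) (v₂ 0) (x1.conj x2)
    have hr1 := rkA S w1 x1 z1 r1 (Nat.zero_le r)
    have hr2 := rkA S w2 x2 z2 r2 (Nat.zero_le r)
    rw [pts_Iic_zero] at hr1 hr2
    have him : im (Set.range (v₁ 0)) θ00 = Set.range (v₂ 0) :=
      im_range θ00 (v₁ 0) (v₂ 0) (fun c => mem_cl_of_mem ⟨c, rfl⟩) h00
    have himE : im (∅ : Set L₁) θ00 = ∅ := by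
      unfold im
      simp
    have hc : Conj K q₁ q₂ := z1.conj z2
    have hmain := ldt hLD hCR (Set.finite_range (v₁ 0)) (Set.empty_subset _) θ00 q₁ q₂ (by
        rw [Set.empty_union, hr1, S.rk_vtx x1, S.rk_vtx z1, rk_empty]
        omega) (by
        rw [him, himE, Set.empty_union, hr2, S.rk_vtx x1, S.rk_vtx z2, rk_empty]
        omega) (by
        intro f
        refine bot_case ?_ _ q₁ q₂ hc f
        intro a
        obtain ⟨b, hb⟩ := mem_cl_empty a.2
        exact ⟨b, Subtype.ext hb⟩)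
    obtain ⟨θ, hθ1, hθ2⟩ := hCR K L₁ L₂ (Set.range (v₁ 0)) θ00 (Fin n) q₁ q₂ hmain
    refine ⟨θ, ?_, fun c b hb => hθ2 c b hb⟩
    intro j hj c b hb
    have hj0 : j = 0 := Nat.le_zero.mp hj
    subst hj0
    rw [hθ1 ⟨v₁ 0 c, mem_cl_of_mem ⟨c, rfl⟩⟩ b hb]
    exact h00 c _ rfl
  | succ i ih =>
    intro hi
    have ih' := ih (by omega)
    have hr1 := rkA S w1 x1 z1 r1 (show i ≤ r by omega)
    have hr2 := rkA S w2 x2 z2 r2 (show i ≤ r by omega)
    have hr1' := rkA S w1 x1 z1 r1 hi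
    have hr2' := rkA S w2 x2 z2 r2 hi
    have e1 : pts v₁ (Set.Iic (i + 1)) ∪ Set.range q₁ =
        (pts v₁ (Set.Iic i) ∪ Set.range q₁) ∪ Set.range (v₁ (i + 1)) := by
      rw [pts_Iic_succ]
      ext a; simp only [Set.mem_union]; tauto
    have e2 : pts v₂ (Set.Iic (i + 1)) ∪ Set.range q₂ =
        (pts v₂ (Set.Iic i) ∪ Set.range q₂) ∪ Set.range (v₂ (i + 1)) := by
      rw [pts_Iic_succ]
      ext a; simp only [Set.mem_union]; tauto
    rw [e1] at hr1' ⊢
    rw [e2] at hr2'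
    set A := pts v₁ (Set.Iic i) ∪ Set.range q₁ with hA
    obtain ⟨θ, hθ1, hθ2⟩ := ih'
    have hAf : A.Finite := (pts_Iic_finite v₁ i).union (Set.finite_range _)
    have htA : Set.range (v₁ i) ⊆ A :=
      (range_subset_pts v₁ (Set.mem_Iic.mpr (le_refl i))).trans Set.subset_union_left
    have himA : im A θ = pts v₂ (Set.Iic i) ∪ Set.range q₂ := by
      ext a
      constructor
      · rintro ⟨b, hb, rfl⟩
        rcases hb with hb | ⟨c, hc⟩
        · left
          obtain ⟨j, hj, c, hc⟩ := mem_pts.mp hb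
          rw [hθ1 j hj c b hc.symm]
          exact coord_mem_pts v₂ hj c
        · right
          exact ⟨c, (hθ2 c b hc.symm).symm⟩
      · rintro (ha | ⟨c, rfl⟩)
        · obtain ⟨j, hj, c, rfl⟩ := mem_pts.mp ha
          have hm : v₁ j c ∈ A := Or.inl (coord_mem_pts v₁ hj c)
          exact ⟨⟨v₁ j c, mem_cl_of_mem hm⟩, hm, hθ1 j hj c _ rfl⟩
        · have hm : q₁ c ∈ A := Or.inr ⟨c, rfl⟩
          exact ⟨⟨q₁ c, mem_cl_of_mem hm⟩, hm, hθ2 c _ rfl⟩
    have himt : im (Set.range (v₁ i)) θ = Set.range (v₂ i) :=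
      im_range θ (v₁ i) (v₂ i) (fun c => mem_cl_of_mem (htA ⟨c, rfl⟩)) (hθ1 i le_rfl)
    have hE1 := w1 i (by omega)
    have hE2 := w2 i (by omega)
    have k1 : (m + 1) * k = m * k + k := by ring
    have k2 : (i + 1) * k = i * k + k := by ring
    have hmain := ldt hLD hCR hAf htA θ (v₁ (i + 1)) (v₂ (i + 1)) (by
        rw [hr1', hr1, S.rk_vtx hE1.vtx, S.rk_edge hE1]
        omega) (by
        rw [himA, himt, hr2', hr1, S.rk_vtx hE1.vtx, S.rk_edge hE2]
        omega) (by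
        apply nbr S hC hCR hIRR hE1 hE2
        intro c b hb
        rw [← res_apply (cl_mono htA) θ b ⟨(b : L₁), cl_mono htA b.2⟩ rfl]
        exact hθ1 i le_rfl c _ hb)
    obtain ⟨θ', hθ1', hθ2'⟩ := hCR K L₁ L₂ A θ (Fin n) (v₁ (i + 1)) (v₂ (i + 1)) hmain
    refine ⟨θ', ?_, ?_⟩
    · intro j hj c b hb
      rcases Nat.lt_or_ge i j with hij | hij
      · have : j = i + 1 := by omega
        subst this
        exact hθ2' c b hb
      · have hm : v₁ j c ∈ A := Or.inl (coord_mem_pts v₁ (Set.mem_Iic.mpr hij) c)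
        rw [hθ1' ⟨v₁ j c, mem_cl_of_mem hm⟩ b hb]
        exact hθ1 j hij c _ rfl
    · intro c b hb
      have hm : q₁ c ∈ A := Or.inr ⟨c, rfl⟩
      rw [hθ1' ⟨q₁ c, mem_cl_of_mem hm⟩ b hb]
      exact hθ2 c _ rfl

end walk

end TYPE

theorem st_TYPE (hLD : ST_LD.{u}) (hC : ST_CONJ.{u}) (hCR : ST_CONJR.{u}) (hIRR : ST_IRR.{u}) :
    ST_TYPE.{u} := by
  intro K _ _ n m S L₁ L₂ _ _ _ _ _ _ σ ρ r v₁ v₂ q₁ q₂ w1 w2 x1 x2 z1 z2 r1 r2
  have e : m + r + m = m * 1 + r * 1 + m * 1 := by omega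
  rw [e] at r1 r2
  exact TYPE.main S.toSys hLD hC hCR hIRR w1 w2 x1 x2 z1 z2 r1 r2 r le_rfl

end Pool.Agent.Helper92.GG
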